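import Mathlib

set_option autoImplicit false

namespace Pool.Agent.H6.ChiU

open MeasureTheory Finset

/-- integer vectors as points of Euclidean space. -/
noncomputable def pt {n : ℕ} (z : Fin n → ℤ) : EuclideanSpace ℝ (Fin n) :=
  WithLp.toLp 2 (fun i => (z i : ℝ))

@[simp] lemma pt_apply {n : ℕ} (z : Fin n → ℤ) (i : Fin n) : pt z i = (z i : ℝ) := rfl

lemma pt_add {n : ℕ} (z w : Fin n → ℤ) : pt (z + w) = pt z + pt w := by
  ext i; simp [pt]

lemma pt_sub {n : ℕ} (z w : Fin n → ℤ) : pt (z - w) = pt z - pt w := by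
  ext i; simp [pt]

lemma pt_neg {n : ℕ} (z : Fin n → ℤ) : pt (-z) = -pt z := by
  ext i; simp [pt]

lemma pt_zero {n : ℕ} : pt (0 : Fin n → ℤ) = 0 := by
  ext i; simp [pt]

/-- The integer part of a point. -/
noncomputable def fl {n : ℕ} (x : EuclideanSpace ℝ (Fin n)) : Fin n → ℤ := fun i => ⌊x i⌋

lemma norm_le_sqrt {n : ℕ} (x : EuclideanSpace ℝ (Fin n)) (h : ∀ i, |x i| ≤ 1) :
    ‖x‖ ≤ Real.sqrt n := by
  rw [EuclideanSpace.norm_eq]
  apply Real.sqrt_le_sqrt
  calc ∑ i, ‖x i‖ ^ 2 ≤ ∑ _i : Fin n, (1 : ℝ) := by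
        apply sum_le_sum
        intro i _
        rw [Real.norm_eq_abs]
        have := h i
        nlinarith [abs_nonneg (x i)]
    _ = n := by simp

lemma norm_sub_fl {n : ℕ} (x : EuclideanSpace ℝ (Fin n)) : ‖x - pt (fl x)‖ ≤ Real.sqrt n := by
  apply norm_le_sqrt
  intro i
  have h1 := Int.floor_le (x i)
  have h2 := Int.lt_floor_add_one (x i)
  simp only [PiLp.sub_apply, pt_apply, fl]
  rw [abs_le]
  constructor <;> linarith

/-- the unit cube at an integer vector. -/
def cube {n : ℕ} (z : Fin n → ℤ) : Set (EuclideanSpace ℝ (Fin n)) := {x | fl x = z}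

lemma cube_eq {n : ℕ} (z : Fin n → ℤ) :
    cube z = (@WithLp.ofLp 2 (Fin n → ℝ)) ⁻¹' (Set.pi Set.univ (fun i => Set.Ico (z i : ℝ) (z i + 1))) := by
  ext x
  simp only [cube, Set.mem_ofPred_eq, Set.mem_preimage, Set.mem_pi, Set.mem_univ, forall_const,
    Set.mem_Ico]
  constructor
  · intro h i
    have := congrFun h i
    exact Int.floor_eq_iff.1 this
  · intro h
    funext i
    exact Int.floor_eq_iff.2 (h i)

lemma measurable_cube {n : ℕ} (z : Fin n → ℤ) : MeasurableSet (cube z) := by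
  rw [cube_eq]
  exact (MeasurableSet.univ_pi (fun i => measurableSet_Ico)).preimage
    (PiLp.volume_preserving_ofLp (Fin n)).measurable

lemma volume_cube {n : ℕ} (z : Fin n → ℤ) : volume (cube z) = 1 := by
  rw [cube_eq, (PiLp.volume_preserving_ofLp (Fin n)).measure_preimage
    (MeasurableSet.univ_pi (fun i => measurableSet_Ico)).nullMeasurableSet, Real.volume_pi_Ico]
  simp

/-- volume of the unit ball. -/
noncomputable def vb (n : ℕ) : ℝ := (volume (Metric.ball (0 : EuclideanSpace ℝ (Fin n)) 1)).toReal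

lemma vb_pos (n : ℕ) : 0 < vb n := by
  unfold vb
  apply ENNReal.toReal_pos
  · exact (Metric.measure_ball_pos volume _ one_pos).ne'
  · exact measure_ball_lt_top.ne

lemma vol_ball {n : ℕ} (c : EuclideanSpace ℝ (Fin n)) {r : ℝ} (hr : 0 < r) :
    (volume (Metric.ball c r)).toReal = r ^ n * vb n := by
  rw [Measure.addHaar_ball_of_pos volume c hr, ENNReal.toReal_mul, ENNReal.toReal_ofReal (by positivity)]
  simp [vb, finrank_euclideanSpace]

lemma volume_iUnion_cube {n : ℕ} (S : Finset (Fin n → ℤ)) :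
    volume (⋃ z ∈ S, cube z) = S.card := by
  rw [measure_biUnion_finset]
  · simp [volume_cube]
  · intro z _ w _ hzw
    rw [Function.onFun, Set.disjoint_left]
    intro x hx hy
    exact hzw (hx.symm.trans hy)
  · intro z _
    exact measurable_cube z

/-- Upper bound for the number of integer points of a ball. -/
lemma card_le_ball {n : ℕ} (S : Finset (Fin n → ℤ)) (c : EuclideanSpace ℝ (Fin n)) {R : ℝ}
    (hR : 0 < R) (h : ∀ z ∈ S, ‖pt z - c‖ ≤ R) :
    (S.card : ℝ) ≤ (R + 2 * Real.sqrt n + 1) ^ n * vb n := by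
  have hpos : 0 < R + 2 * Real.sqrt n + 1 := by positivity
  rw [← vol_ball c hpos]
  have h1 : (S.card : ENNReal) ≤ volume (Metric.ball c (R + 2 * Real.sqrt n + 1)) := by
    rw [← volume_iUnion_cube S]
    apply measure_mono
    intro x hx
    simp only [Set.mem_iUnion, exists_prop] at hx
    obtain ⟨z, hz, hxz⟩ := hx
    have h2 : fl x = z := hxz
    rw [Metric.mem_ball, dist_eq_norm]
    have h3 := norm_sub_fl x
    rw [h2] at h3
    have h4 := h z hz
    calc ‖x - c‖ = ‖(x - pt z) + (pt z - c)‖ := by congr 1; abel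
      _ ≤ ‖x - pt z‖ + ‖pt z - c‖ := norm_add_le _ _
      _ < R + 2 * Real.sqrt n + 1 := by
          have := Real.sqrt_nonneg (n : ℝ)
          linarith
  have h5 := ENNReal.toReal_mono measure_ball_lt_top.ne h1
  simpa using h5

/-- Lower bound for the number of integer points of a ball. -/
lemma le_card_ball {n : ℕ} (S : Finset (Fin n → ℤ)) {r : ℝ}
    (hr : Real.sqrt n < r) (h : ∀ z, ‖pt z‖ < r → z ∈ S) :
    (r - Real.sqrt n) ^ n * vb n ≤ (S.card : ℝ) := by
  have hpos : 0 < r - Real.sqrt n := by linarith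
  rw [← vol_ball (0 : EuclideanSpace ℝ (Fin n)) hpos]
  have h1 : volume (Metric.ball (0 : EuclideanSpace ℝ (Fin n)) (r - Real.sqrt n)) ≤ (S.card : ENNReal) := by
    rw [← volume_iUnion_cube S]
    apply measure_mono
    intro x hx
    rw [Metric.mem_ball, dist_eq_norm, sub_zero] at hx
    simp only [Set.mem_iUnion, exists_prop]
    refine ⟨fl x, ?_, rfl⟩
    apply h
    have h3 := norm_sub_fl x
    calc ‖pt (fl x)‖ = ‖x - (x - pt (fl x))‖ := by congr 1; abel
      _ ≤ ‖x‖ + ‖x - pt (fl x)‖ := norm_sub_le _ _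
      _ < r := by linarith
  have h5 := ENNReal.toReal_mono (ENNReal.natCast_ne_top _) h1
  simpa using h5

end Pool.Agent.H6.ChiU
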