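import Mathlib

set_option autoImplicit false

namespace Pool.Agent.H6.ChiU

open scoped RealInnerProductSpace

section
variable {V : Type*} [NormedAddCommGroup V] [InnerProductSpace ℝ V]

/-- The centre `s` (seen from the centre `0`) removes the point `a`. -/
def Kills (D : ℝ) (a s : V) : Prop := ‖s‖ * (‖s‖ - D) ≤ 2 * ⟪a, s⟫

/-- Points kept by both centres are at distance more than `D`. -/
lemma sep {D : ℝ} {a b s : V} (h1 : ¬ Kills D a s) (h2 : ¬ Kills D b (-s)) :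
    D < ‖s + b - a‖ := by
  unfold Kills at h1 h2
  push Not at h1 h2
  rw [norm_neg, inner_neg_right] at h2
  have h3 : ⟪s + b - a, s⟫ = ‖s‖ ^ 2 + ⟪b, s⟫ - ⟪a, s⟫ := by
    rw [inner_sub_left, inner_add_left, real_inner_self_eq_norm_sq]
  have h4 : ⟪s + b - a, s⟫ ≤ ‖s + b - a‖ * ‖s‖ := real_inner_le_norm _ _
  have h5 : 0 ≤ ‖s‖ := norm_nonneg s
  by_contra h6
  push Not at h6
  nlinarith [mul_le_mul_of_nonneg_right h6 h5]

lemma quartic (σ : ℝ) : σ ^ 3 * (2 - σ) ≤ 27 / 16 := by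
  have h : 27 / 16 - σ ^ 3 * (2 - σ) = (σ - 3 / 2) ^ 2 * (σ ^ 2 + σ + 3 / 4) := by ring
  have h2 : 0 < σ ^ 2 + σ + 3 / 4 := by nlinarith [sq_nonneg (σ + 1 / 2)]
  have h3 : 0 ≤ (σ - 3 / 2) ^ 2 * (σ ^ 2 + σ + 3 / 4) := mul_nonneg (sq_nonneg _) h2.le
  linarith

/-- The region of the killing centres is contained in a cylinder around the line of `a`. -/
lemma cyl {D S c : ℝ} (hD : 0 < D) (hS : 0 ≤ S) (hcS : |c| ≤ S) {A : ℝ} (hA0 : 0 ≤ A)
    (hA : 2 * A ≤ D) (h : S * (S - D) ≤ 2 * (A * c)) :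
    S ≤ 2 * D ∧ S ^ 2 - c ^ 2 ≤ 27 / 16 * D ^ 2 := by
  have hc := abs_le.1 hcS
  rcases le_or_gt S D with hSD | hSD
  · refine ⟨by linarith, ?_⟩
    nlinarith [sq_nonneg c]
  · have hpos : 0 < S * (S - D) := mul_pos (by linarith) (by linarith)
    have hcpos : 0 < c := by
      by_contra hcn
      push Not at hcn
      have : A * c ≤ 0 := mul_nonpos_of_nonneg_of_nonpos hA0 hcn
      linarith
    have h1 : S * (S - D) ≤ D * c := by nlinarith
    have h2 : S ≤ 2 * D := by nlinarith [hc.2]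
    refine ⟨h2, ?_⟩
    have h3 : (S * (S - D)) ^ 2 ≤ (D * c) ^ 2 := by
      apply pow_le_pow_left₀ hpos.le h1
    have h4 := quartic (S / D)
    have h5 : (S / D) ^ 3 * (2 - S / D) * D ^ 4 ≤ 27 / 16 * D ^ 4 :=
      mul_le_mul_of_nonneg_right h4 (by positivity)
    have h6 : (S / D) ^ 3 * (2 - S / D) * D ^ 4 = S ^ 3 * (2 * D - S) := by
      field_simp
    rw [h6] at h5
    have hD2 : 0 < D ^ 2 := by positivity
    have h7 : (S ^ 2 - c ^ 2) * D ^ 2 ≤ 27 / 16 * D ^ 2 * D ^ 2 := by nlinarith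
    exact le_of_mul_le_mul_right h7 hD2

/-- Covering of the kill region by balls centred on the axis. -/
lemma kill_cover {D h : ℝ} (hD : 0 < D) (hh : 0 < h) (m : ℕ) (hm : 2 * D ≤ m * h) {a : V}
    (ha : 2 * ‖a‖ ≤ D) :
    ∃ e : V, ∀ s : V, Kills D a s → ∃ k ∈ Finset.Icc (-(m : ℤ)) m,
      ‖s - ((k : ℝ) * h) • e‖ ≤ Real.sqrt (27 / 16 * D ^ 2 + h ^ 2) := by
  -- axis
  obtain ⟨e, he, hae⟩ : ∃ e : V, (‖e‖ = 1 ∨ e = 0) ∧ a = ‖a‖ • e := by
    by_cases h0 : a = 0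
    · exact ⟨0, Or.inr rfl, by simp [h0]⟩
    · refine ⟨(‖a‖)⁻¹ • a, Or.inl ?_, ?_⟩
      · rw [norm_smul, norm_inv, norm_norm, inv_mul_cancel₀ (norm_ne_zero_iff.2 h0)]
      · rw [smul_smul, mul_inv_cancel₀ (norm_ne_zero_iff.2 h0), one_smul]
  refine ⟨e, fun s hs => ?_⟩
  set c : ℝ := ⟪e, s⟫ with hc
  have hen : ‖e‖ ≤ 1 := by
    rcases he with h1 | h1
    · exact h1.le
    · rw [h1, norm_zero]; norm_num
  have hcS : |c| ≤ ‖s‖ := by
    calc |c| ≤ ‖e‖ * ‖s‖ := abs_real_inner_le_norm _ _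
      _ ≤ 1 * ‖s‖ := mul_le_mul_of_nonneg_right hen (norm_nonneg _)
      _ = ‖s‖ := one_mul _
  have hinner : ⟪a, s⟫ = ‖a‖ * c := by
    conv_lhs => rw [hae]
    rw [real_inner_smul_left]
  have hk : ‖s‖ * (‖s‖ - D) ≤ 2 * (‖a‖ * c) := by
    have := hs
    unfold Kills at this
    rwa [hinner] at this
  obtain ⟨h1, h2⟩ := cyl hD (norm_nonneg s) hcS (norm_nonneg a) ha hk
  have hcb := abs_le.1 hcS
  refine ⟨⌊c / h⌋, ?_, ?_⟩
  · rw [Finset.mem_Icc]
    constructor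
    · rw [Int.le_floor]
      push_cast
      rw [le_div_iff₀ hh]
      nlinarith
    · have : (⌊c / h⌋ : ℝ) ≤ m := by
        refine (Int.floor_le _).trans ?_
        rw [div_le_iff₀ hh]
        linarith
      exact_mod_cast this
  · set k : ℝ := (⌊c / h⌋ : ℝ) with hkdef
    have hk1 : k ≤ c / h := Int.floor_le _
    have hk2 : c / h < k + 1 := Int.lt_floor_add_one _
    rw [le_div_iff₀ hh] at hk1
    rw [div_lt_iff₀ hh] at hk2
    apply Real.le_sqrt_of_sq_le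
    have hexp : ‖s - (k * h) • e‖ ^ 2 = ‖s‖ ^ 2 - 2 * (k * h) * c + (k * h) ^ 2 * ‖e‖ ^ 2 := by
      rw [norm_sub_sq_real, real_inner_smul_right, norm_smul, real_inner_comm, ← hc, mul_pow,
        Real.norm_eq_abs, sq_abs]
      ring
    rw [hexp]
    rcases he with h3 | h3
    · rw [h3]
      nlinarith
    · have hc0 : c = 0 := by rw [hc, h3, inner_zero_left]
      rw [h3, norm_zero]
      rw [hc0] at h2 ⊢
      nlinarith [sq_nonneg h]

end

end Pool.Agent.H6.ChiU
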