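import Mathlib

set_option autoImplicit false

namespace Pool.Agent.H6.ChiU

open Finset

variable {G : Type*} [AddCommGroup G] [Fintype G] [DecidableEq G]

lemma card_shift {m : ℕ} (i j : Fin m) (hij : i ≠ j) (κ : Finset G) :
    Fintype.card G * (univ.filter (fun v : Fin m → G => v j - v i ∈ κ)).card
      = κ.card * Fintype.card (Fin m → G) := by
  classical
  have h1 : ∀ t : G, (univ.filter (fun v : Fin m → G => v j + t - v i ∈ κ)).card
      = (univ.filter (fun v : Fin m → G => v j - v i ∈ κ)).card := by
    intro t
    apply card_bij (fun v _ => v + Pi.single j t)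
    · intro v hv
      simp only [mem_filter, mem_univ, true_and, Pi.add_apply, Pi.single_eq_same,
        Pi.single_eq_of_ne hij, add_zero] at hv ⊢
      exact hv
    · intro v _ w _ h
      exact add_right_cancel h
    · intro w hw
      refine ⟨w - Pi.single j t, ?_, by simp⟩
      simp only [mem_filter, mem_univ, true_and, Pi.sub_apply, Pi.single_eq_same,
        Pi.single_eq_of_ne hij, sub_zero, sub_add_cancel] at hw ⊢
      exact hw
  have h2 : ∀ v : Fin m → G, (univ.filter (fun t : G => v j + t - v i ∈ κ)).card = κ.card := by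
    intro v
    apply card_bij (fun t _ => v j + t - v i)
    · intro t ht
      simpa using ht
    · intro t _ t' _ h
      simpa using h
    · intro g hg
      refine ⟨g + v i - v j, ?_, ?_⟩
      · simp only [mem_filter, mem_univ, true_and]
        have : v j + (g + v i - v j) - v i = g := by abel
        rw [this]; exact hg
      · abel
  have h3 : ∑ t : G, (univ.filter (fun v : Fin m → G => v j + t - v i ∈ κ)).card
      = ∑ v : Fin m → G, (univ.filter (fun t : G => v j + t - v i ∈ κ)).card := by
    simp only [card_filter]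
    exact sum_comm
  rw [sum_congr rfl (fun t _ => h1 t), sum_congr rfl (fun v _ => h2 v)] at h3
  simp only [sum_const, card_univ, smul_eq_mul] at h3
  rw [h3, mul_comm]

/-- Random choice of centres: half of the points of the cells can be kept. -/
theorem select {α : Type*} [DecidableEq α] (B : Finset α) (κ : α → Finset G) (K m : ℕ)
    (hK : ∀ a ∈ B, (κ a).card ≤ K) (hm : 2 * ((m - 1) * K) ≤ Fintype.card G) :
    ∃ v : Fin m → G, m * B.card ≤ 2 *
      ((univ ×ˢ B : Finset (Fin m × α)).filter (fun p => ∀ j, j ≠ p.1 → v j - v p.1 ∉ κ p.2)).card := by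
  classical
  have hG : 0 < Fintype.card G := Fintype.card_pos
  have hV : 0 < Fintype.card (Fin m → G) := Fintype.card_pos
  set N : (Fin m → G) → ℕ := fun v =>
    ((univ ×ˢ B : Finset (Fin m × α)).filter (fun p => ¬ ∀ j, j ≠ p.1 → v j - v p.1 ∉ κ p.2)).card
    with hN
  -- total number of killed points
  have h1 : ∀ v, N v ≤ ∑ i : Fin m, ∑ a ∈ B, ∑ j ∈ univ.erase i, if v j - v i ∈ κ a then 1 else 0 := by
    intro v
    rw [hN]
    simp only
    rw [card_filter, sum_product]
    apply sum_le_sum
    intro i _
    apply sum_le_sum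
    intro a _
    by_cases h : ∀ j, j ≠ i → v j - v i ∉ κ a
    · rw [if_neg (not_not_intro h)]
      exact Nat.zero_le _
    · rw [if_pos h]
      push Not at h
      obtain ⟨j, hj, hj2⟩ := h
      have := single_le_sum (f := fun j => if v j - v i ∈ κ a then 1 else 0)
        (fun j _ => Nat.zero_le _) (mem_erase.2 ⟨hj, mem_univ j⟩)
      simp only [hj2, if_true] at this
      exact this
  have h2 : Fintype.card G * ∑ v, N v ≤ m * (B.card * ((m - 1) * K)) * Fintype.card (Fin m → G) := by
    calc Fintype.card G * ∑ v, N v
        ≤ Fintype.card G * ∑ v : Fin m → G, ∑ i : Fin m, ∑ a ∈ B, ∑ j ∈ univ.erase i,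
            (if v j - v i ∈ κ a then 1 else 0) :=
          Nat.mul_le_mul_left _ (sum_le_sum (fun v _ => h1 v))
      _ = ∑ i : Fin m, ∑ a ∈ B, ∑ j ∈ univ.erase i, Fintype.card G * (univ.filter (fun v : Fin m → G => v j - v i ∈ κ a)).card := by
          rw [sum_comm, mul_sum]
          apply sum_congr rfl
          intro i _
          rw [sum_comm, mul_sum]
          apply sum_congr rfl
          intro a _
          rw [sum_comm, mul_sum]
          apply sum_congr rfl
          intro j _
          rw [card_filter]
      _ ≤ ∑ _i : Fin m, ∑ _a ∈ B, ∑ _j ∈ univ.erase _i, K * Fintype.card (Fin m → G) := by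
          apply sum_le_sum
          intro i _
          apply sum_le_sum
          intro a ha
          apply sum_le_sum
          intro j hj
          rw [card_shift i j (ne_of_mem_erase hj).symm]
          exact Nat.mul_le_mul_right _ (hK a ha)
      _ = m * (B.card * ((m - 1) * K)) * Fintype.card (Fin m → G) := by
          simp only [sum_const, card_univ, smul_eq_mul, Fintype.card_fin, mem_univ, card_erase_of_mem]
          ring
  have h3 : 2 * ∑ v, N v ≤ m * B.card * Fintype.card (Fin m → G) := by
    have h4 : Fintype.card G * (2 * ∑ v, N v) ≤ Fintype.card G * (m * B.card * Fintype.card (Fin m → G)) := by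
      calc Fintype.card G * (2 * ∑ v, N v) = 2 * (Fintype.card G * ∑ v, N v) := by ring
        _ ≤ 2 * (m * (B.card * ((m - 1) * K)) * Fintype.card (Fin m → G)) := Nat.mul_le_mul_left _ h2
        _ = (2 * ((m - 1) * K)) * (m * B.card * Fintype.card (Fin m → G)) := by ring
        _ ≤ Fintype.card G * (m * B.card * Fintype.card (Fin m → G)) := Nat.mul_le_mul_right _ hm
    exact Nat.le_of_mul_le_mul_left h4 hG
  obtain ⟨v, hv⟩ : ∃ v, 2 * N v ≤ m * B.card := by
    by_contra hcon
    push Not at hcon
    have h5 : ∑ _v : Fin m → G, m * B.card < ∑ v : Fin m → G, 2 * N v := by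
      apply sum_lt_sum_of_nonempty
      · exact univ_nonempty
      · intro v _
        exact hcon v
    have h5' : ∑ _v : Fin m → G, m * B.card = m * B.card * Fintype.card (Fin m → G) := by
      rw [sum_const, card_univ, smul_eq_mul]
      ring
    rw [← mul_sum (s := univ) (f := N), h5'] at h5
    omega
  refine ⟨v, ?_⟩
  have h6 := card_filter_add_card_filter_not (s := (univ ×ˢ B : Finset (Fin m × α)))
    (fun p => ∀ j, j ≠ p.1 → v j - v p.1 ∉ κ p.2)
  have h7 : (univ ×ˢ B : Finset (Fin m × α)).card = m * B.card := by
    rw [card_product, card_univ, Fintype.card_fin]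
  rw [h7] at h6
  have h8 : N v = ((univ ×ˢ B : Finset (Fin m × α)).filter (fun p => ¬ ∀ j, j ≠ p.1 → v j - v p.1 ∉ κ p.2)).card := rfl
  omega

/-- Greedy covering of a finite group by translates. -/
theorem cover_step (A U : Finset G) :
    ∃ t : G, U.card * A.card ≤ Fintype.card G * (U.filter (fun g => g - t ∈ A)).card := by
  classical
  have hG : 0 < Fintype.card G := Fintype.card_pos
  by_contra hcon
  push Not at hcon
  have h1 : ∑ t : G, (U.filter (fun g => g - t ∈ A)).card = U.card * A.card := by
    simp only [card_filter]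
    rw [sum_comm]
    have h2 : ∀ g ∈ U, ∑ t : G, (if g - t ∈ A then 1 else 0) = A.card := by
      intro g _
      rw [← card_filter]
      apply card_bij (fun t _ => g - t)
      · intro t ht
        simpa using ht
      · intro t _ t' _ h
        simpa using h
      · intro a ha
        exact ⟨g - a, by simpa using ha, by abel⟩
    rw [sum_congr rfl h2]
    simp
  have h3 : ∑ t : G, Fintype.card G * (U.filter (fun g => g - t ∈ A)).card
      < ∑ _t : G, U.card * A.card := by
    apply sum_lt_sum_of_nonempty univ_nonempty
    intro t _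
    exact hcon t
  rw [← mul_sum, h1, sum_const, card_univ, smul_eq_mul] at h3
  exact lt_irrefl _ h3

theorem cover (A : Finset G) (k : ℕ) :
    ∃ t : Fin k → G, ((univ.filter (fun g => ∀ i, g - t i ∉ A)).card : ℝ)
      ≤ (1 - (A.card : ℝ) / Fintype.card G) ^ k * Fintype.card G := by
  classical
  have hG : (0 : ℝ) < Fintype.card G := by exact_mod_cast Fintype.card_pos
  induction k with
  | zero =>
    refine ⟨Fin.elim0, ?_⟩
    simp only [pow_zero, one_mul]
    exact_mod_cast card_le_univ _
  | succ k ih =>
    obtain ⟨t, ht⟩ := ih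
    set U := univ.filter (fun g => ∀ i, g - t i ∉ A) with hU
    obtain ⟨s, hs⟩ := cover_step A U
    refine ⟨Fin.snoc t s, ?_⟩
    have h1 : (univ.filter (fun g => ∀ i, g - (Fin.snoc t s : Fin (k + 1) → G) i ∉ A))
        = U.filter (fun g => ¬ (g - s ∈ A)) := by
      ext g
      simp only [hU, mem_filter, mem_univ, true_and]
      constructor
      · intro h
        refine ⟨fun i => ?_, ?_⟩
        · have := h (Fin.castSucc i)
          simpa using this
        · have := h (Fin.last k)
          simpa using this
      · rintro ⟨h, h'⟩ i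
        refine Fin.lastCases ?_ (fun i => ?_) i
        · simpa using h'
        · simpa using h i
    rw [h1]
    have h2 := card_filter_add_card_filter_not (s := U) (fun g => g - s ∈ A)
    have h3 : ((U.filter (fun g => g - s ∈ A)).card : ℝ) + ((U.filter (fun g => ¬ (g - s ∈ A))).card : ℝ)
        = U.card := by exact_mod_cast h2
    have h4 : (U.card : ℝ) * A.card ≤ Fintype.card G * ((U.filter (fun g => g - s ∈ A)).card : ℝ) := by
      exact_mod_cast hs
    have h5 : (U.card : ℝ) * (A.card / Fintype.card G) ≤ ((U.filter (fun g => g - s ∈ A)).card : ℝ) := by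
      rw [mul_div_assoc', div_le_iff₀ hG]
      linarith
    have h6 : (A.card : ℝ) / Fintype.card G ≤ 1 := by
      rw [div_le_one hG]
      exact_mod_cast card_le_univ _
    calc ((U.filter (fun g => ¬ (g - s ∈ A))).card : ℝ)
        ≤ (1 - (A.card : ℝ) / Fintype.card G) * U.card := by linarith
      _ ≤ (1 - (A.card : ℝ) / Fintype.card G) * ((1 - (A.card : ℝ) / Fintype.card G) ^ k * Fintype.card G) :=
          mul_le_mul_of_nonneg_left ht (by linarith)
      _ = _ := by ring

/-- A set of density `δ` has `k` covering translates as soon as `k δ > log |G|`. -/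
theorem cover_all (A : Finset G) (k : ℕ)
    (hk : Real.log (Fintype.card G) < k * ((A.card : ℝ) / Fintype.card G)) :
    ∃ t : Fin k → G, ∀ g, ∃ i, g - t i ∈ A := by
  classical
  obtain ⟨t, ht⟩ := cover A k
  refine ⟨t, ?_⟩
  by_contra hcon
  push Not at hcon
  obtain ⟨g, hg⟩ := hcon
  have hG : (0 : ℝ) < Fintype.card G := by exact_mod_cast Fintype.card_pos
  have h1 : 0 < (univ.filter (fun g => ∀ i, g - t i ∉ A)).card :=
    card_pos.2 ⟨g, by simpa using hg⟩
  have h2 : (1 : ℝ) ≤ ((univ.filter (fun g => ∀ i, g - t i ∉ A)).card : ℝ) := by exact_mod_cast h1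
  set δ : ℝ := (A.card : ℝ) / Fintype.card G with hδ
  have h6 : δ ≤ 1 := by
    rw [hδ, div_le_one hG]
    exact_mod_cast card_le_univ _
  have h3 : (1 - δ) ^ k ≤ Real.exp (-(k * δ)) := by
    calc (1 - δ) ^ k ≤ (Real.exp (-δ)) ^ k := by
          apply pow_le_pow_left₀ (by linarith)
          have := Real.add_one_le_exp (-δ)
          linarith
      _ = Real.exp (-(k * δ)) := by
          rw [← Real.exp_nat_mul]
          congr 1
          ring
  have h4 : (1 : ℝ) ≤ Real.exp (-(k * δ)) * Fintype.card G :=
    h2.trans (ht.trans (mul_le_mul_of_nonneg_right h3 hG.le))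
  have h5 : Real.exp (-(k * δ)) * Fintype.card G < 1 := by
    calc Real.exp (-(k * δ)) * Fintype.card G
        = Real.exp (-(k * δ)) * Real.exp (Real.log (Fintype.card G)) := by rw [Real.exp_log hG]
      _ = Real.exp (-(k * δ) + Real.log (Fintype.card G)) := by rw [Real.exp_add]
      _ < 1 := by
          rw [Real.exp_lt_one_iff]
          linarith
  linarith

end Pool.Agent.H6.ChiU
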