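import Mathlib
import Pool.Agent.H6.ChiU.Geom
import Pool.Agent.H6.ChiU.Count
import Pool.Agent.H6.ChiU.Select

set_option autoImplicit false

namespace Pool.Agent.H6.ChiU

open Finset
open scoped RealInnerProductSpace

/-- reduction modulo `N`. -/
def pr (n N : ℕ) (z : Fin n → ℤ) : Fin n → ZMod N := fun i => (z i : ZMod N)

lemma pr_add {n N : ℕ} (z w : Fin n → ℤ) : pr n N (z + w) = pr n N z + pr n N w := by
  funext i; simp [pr]

lemma pr_sub {n N : ℕ} (z w : Fin n → ℤ) : pr n N (z - w) = pr n N z - pr n N w := by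
  funext i; simp [pr]

lemma pr_neg {n N : ℕ} (z : Fin n → ℤ) : pr n N (-z) = - pr n N z := by
  funext i; simp [pr]

lemma pr_surj {n N : ℕ} (g : Fin n → ZMod N) : ∃ z, pr n N z = g := by
  refine ⟨fun i => (ZMod.cast (g i) : ℤ), ?_⟩
  funext i
  simp [pr]

lemma pr_inj {n N : ℕ} {z w : Fin n → ℤ} (h : pr n N z = pr n N w)
    (hb : ∀ i, |z i - w i| < N) : z = w := by
  funext i
  have h1 : ((z i : ℤ) : ZMod N) = ((w i : ℤ) : ZMod N) := congrFun h i
  have h2 := (ZMod.intCast_eq_intCast_iff_dvd_sub _ _ N).1 h1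
  have h3 : (N : ℤ) ∣ z i - w i := by
    rw [← dvd_neg]; simpa using h2
  have := Int.eq_zero_of_abs_lt_dvd h3 (hb i)
  linarith

lemma abs_le_norm {n : ℕ} (x : EuclideanSpace ℝ (Fin n)) (i : Fin n) : |x i| ≤ ‖x‖ := by
  rw [← Real.norm_eq_abs]
  exact PiLp.norm_apply_le x i

/-- box of integer vectors. -/
noncomputable def box (n M : ℕ) : Finset (Fin n → ℤ) := Fintype.piFinset (fun _ => Icc (-(M : ℤ)) M)

lemma mem_box {n M : ℕ} {z : Fin n → ℤ} (h : ‖pt z‖ ≤ M) : z ∈ box n M := by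
  rw [box, Fintype.mem_piFinset]
  intro i
  have h1 := (abs_le_norm (pt z) i).trans h
  rw [pt_apply] at h1
  have h2 : |z i| ≤ (M : ℤ) := by
    rw [← Int.cast_abs] at h1
    have h3 : ((|z i| : ℤ) : ℝ) ≤ ((M : ℤ) : ℝ) := by
      rw [Int.cast_natCast]; exact h1
    exact Int.cast_le.1 h3
  rw [Finset.mem_Icc]
  exact abs_le.1 h2

open Classical in
/-- integer points of the cell. -/
noncomputable def cell (n M : ℕ) (r : ℝ) : Finset (Fin n → ℤ) := (box n M).filter (fun z => ‖pt z‖ < r)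

open Classical in
/-- integer centres that kill `a`. -/
noncomputable def killset (n M : ℕ) (D : ℝ) (a : Fin n → ℤ) : Finset (Fin n → ℤ) :=
  (box n M).filter (fun s => Kills D (pt a) (pt s))

lemma kills_norm {V : Type*} [NormedAddCommGroup V] [InnerProductSpace ℝ V] {D : ℝ} (hD : 0 < D)
    {a s : V} (ha : 2 * ‖a‖ ≤ D) (h : Kills D a s) : ‖s‖ ≤ 2 * D := by
  unfold Kills at h
  have h1 : ⟪a, s⟫ ≤ ‖a‖ * ‖s‖ := real_inner_le_norm _ _
  have h2 := norm_nonneg s
  rcases h2.eq_or_lt with h3 | h3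
  · rw [← h3]; linarith
  · have h4 : ‖s‖ * (‖s‖ - D) ≤ D * ‖s‖ := by nlinarith
    nlinarith

/-- The number of killing integer centres. -/
lemma card_killset {n M : ℕ} {D : ℝ} (hD : 0 < D) {a : Fin n → ℤ} (ha : 2 * ‖pt a‖ ≤ D)
    {h : ℝ} (hh : 0 < h) (m : ℕ) (hm : 2 * D ≤ m * h) :
    ((killset n M D a).card : ℝ) ≤
      (2 * m + 1) * ((Real.sqrt (27 / 16 * D ^ 2 + h ^ 2) + 2 * Real.sqrt n + 1) ^ n * vb n) := by
  classical
  obtain ⟨e, he⟩ := kill_cover hD hh m hm ha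
  set R := Real.sqrt (27 / 16 * D ^ 2 + h ^ 2) with hR
  have hRpos : 0 < R := Real.sqrt_pos.2 (by positivity)
  have h1 : killset n M D a ⊆ (Finset.Icc (-(m : ℤ)) m).biUnion
      (fun k => (killset n M D a).filter (fun s => ‖pt s - ((k : ℝ) * h) • e‖ ≤ R)) := by
    intro s hs
    have hs2 : Kills D (pt a) (pt s) := (mem_filter.1 hs).2
    obtain ⟨k, hk, hk2⟩ := he (pt s) hs2
    rw [mem_biUnion]
    exact ⟨k, hk, mem_filter.2 ⟨hs, hk2⟩⟩
  have h2 : (killset n M D a).card ≤ ∑ k ∈ Finset.Icc (-(m : ℤ)) m,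
      ((killset n M D a).filter (fun s => ‖pt s - ((k : ℝ) * h) • e‖ ≤ R)).card :=
    (card_le_card h1).trans card_biUnion_le
  calc ((killset n M D a).card : ℝ)
      ≤ ∑ k ∈ Finset.Icc (-(m : ℤ)) m,
        (((killset n M D a).filter (fun s => ‖pt s - ((k : ℝ) * h) • e‖ ≤ R)).card : ℝ) := by
        exact_mod_cast h2
    _ ≤ ∑ _k ∈ Finset.Icc (-(m : ℤ)) m, (R + 2 * Real.sqrt n + 1) ^ n * vb n := by
        apply sum_le_sum
        intro k _
        apply card_le_ball _ (((k : ℝ) * h) • e) hRpos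
        intro z hz
        exact (mem_filter.1 hz).2
    _ = (2 * m + 1) * ((R + 2 * Real.sqrt n + 1) ^ n * vb n) := by
        rw [sum_const, nsmul_eq_mul, Int.card_Icc]
        congr 1
        have : ((m : ℤ) + 1 - -(m : ℤ)).toNat = 2 * m + 1 := by omega
        rw [this]
        push_cast
        ring

/-- The main construction: colourings from counting bounds. -/
theorem colouring {n U M K : ℕ} (hMU : 2 * ((U : ℝ) + Real.sqrt n) ≤ M)
    (hU : Real.sqrt n < U) (hK0 : 0 < K)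
    (hK : ∀ a ∈ cell n M (((U : ℝ) - Real.sqrt n) / 2), (killset n M (U + Real.sqrt n) a).card ≤ K)
    (k : ℕ) (hk : n * Real.log (2 * U + 1) * (4 * K) < k * (cell n M (((U : ℝ) - Real.sqrt n) / 2)).card) :
    ∃ f : EuclideanSpace ℝ (Fin n) → Fin k, ∀ x y, dist x y = 1 → f x ≠ f y := by
  classical
  set D : ℝ := U + Real.sqrt n with hD
  set r : ℝ := ((U : ℝ) - Real.sqrt n) / 2 with hr
  set B := cell n M r with hB
  have hs0 : 0 ≤ Real.sqrt (n : ℝ) := Real.sqrt_nonneg _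
  have hDpos : 0 < D := by linarith
  set N : ℕ := 2 * U + 1 with hN
  have : NeZero N := ⟨by omega⟩
  set G := (Fin n → ZMod N) with hG
  set κ : (Fin n → ℤ) → Finset G := fun a => (killset n M D a).image (pr n N) with hκ
  set m : ℕ := Fintype.card G / (2 * K) + 1 with hm
  have hm2 : 2 * ((m - 1) * K) ≤ Fintype.card G := by
    have h0 : m - 1 = Fintype.card G / (2 * K) := by rw [hm, Nat.add_sub_cancel]
    rw [h0]
    calc 2 * (Fintype.card G / (2 * K) * K) = Fintype.card G / (2 * K) * (2 * K) := by ring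
      _ ≤ Fintype.card G := Nat.div_mul_le_self _ _
  obtain ⟨v, hv⟩ := select (G := G) B κ K m (fun a ha => card_image_le.trans (hK a ha)) hm2
  set P := ((univ ×ˢ B : Finset (Fin m × (Fin n → ℤ))).filter
    (fun p => ∀ j, j ≠ p.1 → v j - v p.1 ∉ κ p.2)) with hP
  have hBn : ∀ a ∈ B, ‖pt a‖ < r := fun a ha => (mem_filter.1 ha).2
  have hPB : ∀ p ∈ P, p.2 ∈ B := fun p hp => (mem_product.1 (mem_filter.1 hp).1).2
  have hPk : ∀ p ∈ P, ∀ j, j ≠ p.1 → v j - v p.1 ∉ κ p.2 := fun p hp => (mem_filter.1 hp).2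
  -- not killed
  have hnk : ∀ p ∈ P, ∀ j, j ≠ p.1 → ∀ s : Fin n → ℤ, pr n N s = v j - v p.1 →
      ¬ Kills D (pt p.2) (pt s) := by
    intro p hp j hj s hs hkill
    apply hPk p hp j hj
    rw [← hs, hκ]
    apply mem_image_of_mem
    rw [killset, mem_filter]
    refine ⟨mem_box ?_, hkill⟩
    have h1 : 2 * ‖pt p.2‖ ≤ D := by
      have := hBn _ (hPB p hp)
      rw [hr] at this
      linarith
    exact (kills_norm hDpos h1 hkill).trans hMU
  -- different cells
  have hdiff : ∀ p ∈ P, ∀ q ∈ P, p.1 ≠ q.1 → ∀ x y : Fin n → ℤ, pr n N x = v p.1 + pr n N p.2 →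
      pr n N y = v q.1 + pr n N q.2 → D < ‖pt y - pt x‖ := by
    intro p hp q hq hpq x y hx hy
    set s : Fin n → ℤ := (y - q.2) - (x - p.2) with hs
    have h1 : pr n N s = v q.1 - v p.1 := by
      rw [hs, pr_sub, pr_sub, pr_sub, hx, hy]; abel
    have h2 : pr n N (-s) = v p.1 - v q.1 := by
      rw [pr_neg, h1]; abel
    have h3 := hnk p hp q.1 hpq.symm s h1
    have h4 := hnk q hq p.1 hpq (-s) h2
    rw [pt_neg] at h4
    have h5 := sep h3 h4
    have h6 : pt s + pt q.2 - pt p.2 = pt y - pt x := by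
      rw [hs, pt_sub, pt_sub, pt_sub]; abel
    rwa [h6] at h5
  -- same cell
  have hsame : ∀ p ∈ P, ∀ q ∈ P, p.1 = q.1 → ∀ x y : Fin n → ℤ, pr n N x = v p.1 + pr n N p.2 →
      pr n N y = v q.1 + pr n N q.2 → ‖pt y - pt x‖ ≤ D → y - x = q.2 - p.2 := by
    intro p hp q hq hpq x y hx hy hyx
    apply pr_inj (N := N)
    · rw [pr_sub, pr_sub, hx, hy, hpq]; abel
    · intro i
      have h1 := (abs_le_norm (pt y - pt x) i).trans hyx
      have h2 := (abs_le_norm (pt q.2) i).trans_lt (hBn _ (hPB q hq))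
      have h3 := (abs_le_norm (pt p.2) i).trans_lt (hBn _ (hPB p hp))
      rw [PiLp.sub_apply, pt_apply, pt_apply] at h1
      rw [pt_apply] at h2 h3
      have h4 : |(((y - x) i - (q.2 - p.2) i : ℤ) : ℝ)| < ((N : ℤ) : ℝ) := by
        have h5 : (((y - x) i - (q.2 - p.2) i : ℤ) : ℝ)
            = ((y i : ℝ) - x i) - ((q.2 i : ℝ) - p.2 i) := by
          simp only [Pi.sub_apply]; push_cast; ring
        rw [h5]
        calc |((y i : ℝ) - x i) - ((q.2 i : ℝ) - p.2 i)|
            ≤ |(y i : ℝ) - x i| + |(q.2 i : ℝ) - p.2 i| := abs_sub _ _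
          _ ≤ |(y i : ℝ) - x i| + (|(q.2 i : ℝ)| + |(p.2 i : ℝ)|) := by
              have := abs_sub (q.2 i : ℝ) (p.2 i : ℝ)
              linarith
          _ < D + (r + r) := by linarith
          _ = 2 * U := by rw [hD, hr]; ring
          _ < ((N : ℤ) : ℝ) := by rw [hN]; push_cast; linarith
      rw [← Int.cast_abs] at h4
      exact_mod_cast h4
  -- the set
  set A : Finset G := P.image (fun p => v p.1 + pr n N p.2) with hA
  have hcardA : A.card = P.card := by
    rw [hA]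
    apply card_image_of_injOn
    intro p hp q hq hpq
    simp only at hpq
    have hp' : p ∈ P := hp
    have hq' : q ∈ P := hq
    obtain ⟨x, hx⟩ := pr_surj (v p.1 + pr n N p.2)
    by_cases h1 : p.1 = q.1
    · have h2 := hsame p hp' q hq' h1 x x hx (hx.trans hpq) (by simp; exact hDpos.le)
      have h3 : q.2 = p.2 := by
        have : (0 : Fin n → ℤ) = q.2 - p.2 := by rw [← h2]; simp
        exact (sub_eq_zero.1 this.symm)
      exact Prod.ext h1 h3.symm
    · exfalso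
      have h2 := hdiff p hp' q hq' h1 x x hx (hx.trans hpq)
      simp at h2
      linarith
  have hGcard : Fintype.card G = N ^ n := by
    simp [hG, ZMod.card]
  have hGpos : (0 : ℝ) < Fintype.card G := by exact_mod_cast Fintype.card_pos
  have hKpos : (0 : ℝ) < K := by exact_mod_cast hK0
  have hlog : Real.log (Fintype.card G) = n * Real.log (2 * U + 1) := by
    rw [hGcard, hN]
    push_cast
    rw [Real.log_pow]
  have hdens : ((B.card : ℝ)) / (4 * K) ≤ (A.card : ℝ) / Fintype.card G := by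
    rw [div_le_div_iff₀ (by positivity) hGpos, hcardA]
    have h1 : (m : ℝ) * B.card ≤ 2 * P.card := by exact_mod_cast hv
    have h2 : (Fintype.card G : ℝ) ≤ m * (2 * K) := by
      have h3 : Fintype.card G < m * (2 * K) := by
        have h4 := Nat.lt_mul_div_succ (Fintype.card G) (b := 2 * K) (by omega)
        rw [hm]
        calc Fintype.card G < 2 * K * (Fintype.card G / (2 * K) + 1) := h4
          _ = _ := by ring
      exact_mod_cast h3.le
    nlinarith [Nat.cast_nonneg (α := ℝ) B.card]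
  obtain ⟨t, ht⟩ := cover_all A k (by
    rw [hlog]
    refine lt_of_lt_of_le ?_ (mul_le_mul_of_nonneg_left hdens (Nat.cast_nonneg k))
    rw [mul_div_assoc', lt_div_iff₀ (by positivity)]
    exact hk)
  choose c hc using ht
  refine ⟨fun x => c (pr n N (fl ((U : ℝ) • x))), ?_⟩
  intro x y hxy heq
  simp only at heq
  set p := fl ((U : ℝ) • x) with hp
  set q := fl ((U : ℝ) • y) with hq
  have h1 := hc (pr n N p)
  have h2 := hc (pr n N q)
  rw [← heq] at h2
  obtain ⟨τ, hτ⟩ := pr_surj (t (c (pr n N p)))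
  rw [← hτ, ← pr_sub, hA, mem_image] at h1 h2
  obtain ⟨P1, hP1, hP1'⟩ := h1
  obtain ⟨P2, hP2, hP2'⟩ := h2
  have hdist : ‖(U : ℝ) • x - (U : ℝ) • y‖ = U := by
    rw [← smul_sub, norm_smul, ← dist_eq_norm, hxy, mul_one, Real.norm_eq_abs,
      abs_of_nonneg (Nat.cast_nonneg U)]
  have herr : ‖(pt q - pt p) - ((U : ℝ) • y - (U : ℝ) • x)‖ ≤ Real.sqrt n := by
    apply norm_le_sqrt
    intro i
    have e1 := Int.floor_le (((U : ℝ) • x) i)
    have e2 := Int.lt_floor_add_one (((U : ℝ) • x) i)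
    have e3 := Int.floor_le (((U : ℝ) • y) i)
    have e4 := Int.lt_floor_add_one (((U : ℝ) • y) i)
    simp only [PiLp.sub_apply, pt_apply, hp, hq, fl]
    rw [abs_le]
    constructor <;> linarith
  have hup : ‖pt q - pt p‖ ≤ D := by
    calc ‖pt q - pt p‖ = ‖((pt q - pt p) - ((U : ℝ) • y - (U : ℝ) • x)) + ((U : ℝ) • y - (U : ℝ) • x)‖ := by
          congr 1; abel
      _ ≤ _ := norm_add_le _ _
      _ ≤ D := by
          rw [norm_sub_rev ((U : ℝ) • y), hdist, hD]
          linarith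
  have hlow : U - Real.sqrt n ≤ ‖pt q - pt p‖ := by
    have h3 : ‖(U : ℝ) • y - (U : ℝ) • x‖ ≤ ‖pt q - pt p‖ + ‖(pt q - pt p) - ((U : ℝ) • y - (U : ℝ) • x)‖ := by
      calc ‖(U : ℝ) • y - (U : ℝ) • x‖
          = ‖(pt q - pt p) - ((pt q - pt p) - ((U : ℝ) • y - (U : ℝ) • x))‖ := by congr 1; abel
        _ ≤ _ := norm_sub_le _ _
    rw [norm_sub_rev ((U : ℝ) • y), hdist] at h3
    linarith
  have htr : pt (q - τ) - pt (p - τ) = pt q - pt p := by
    rw [pt_sub, pt_sub]; abel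
  by_cases h5 : P1.1 = P2.1
  · have h6 := hsame P1 hP1 P2 hP2 h5 (p - τ) (q - τ) hP1'.symm hP2'.symm (by rw [htr]; exact hup)
    have h7 : pt q - pt p = pt P2.2 - pt P1.2 := by
      rw [← htr, ← pt_sub, h6, pt_sub]
    have h8 : ‖pt q - pt p‖ < U - Real.sqrt n := by
      rw [h7]
      calc ‖pt P2.2 - pt P1.2‖ ≤ ‖pt P2.2‖ + ‖pt P1.2‖ := norm_sub_le _ _
        _ < r + r := add_lt_add (hBn _ (hPB _ hP2)) (hBn _ (hPB _ hP1))
        _ = U - Real.sqrt n := by rw [hr]; ring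
    linarith
  · have h6 := hdiff P1 hP1 P2 hP2 h5 (p - τ) (q - τ) hP1'.symm hP2'.symm
    rw [htr] at h6
    linarith

end Pool.Agent.H6.ChiU
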