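import Mathlib
import Pool.Agent.H6.ChiU.Assemble

set_option autoImplicit false

namespace Pool.Agent.H6.ChiU

open Finset

/-- the growth constant `3 √3 / 2 = 2.598...`. -/
noncomputable def c0 : ℝ := 3 * Real.sqrt 3 / 2

lemma c0_sq : c0 ^ 2 = 27 / 4 := by
  unfold c0
  rw [div_pow, mul_pow, Real.sq_sqrt (by norm_num)]
  norm_num

lemma c0_pos : 0 < c0 := by unfold c0; positivity

lemma c0_ge : (5 / 2 : ℝ) ≤ c0 := by
  have h := c0_sq
  have h2 := c0_pos
  by_contra h3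
  push Not at h3
  nlinarith

lemma zero_mem_cell (n M : ℕ) {r : ℝ} (hr : 0 < r) : (0 : Fin n → ℤ) ∈ cell n M r := by
  classical
  rw [cell, mem_filter]
  refine ⟨mem_box ?_, ?_⟩
  · rw [pt_zero, norm_zero]; exact Nat.cast_nonneg M
  · rw [pt_zero, norm_zero]; exact hr

lemma aux_s {n w s : ℝ} (hw : w = n + 1) (hn : 1 ≤ n) (hs0 : 0 ≤ s) (hs2 : s ^ 2 = n) : s ≤ w := by
  nlinarith

lemma aux_w4 {w : ℝ} (hw : 2 ≤ w) : 4 ≤ w ^ 2 := by nlinarith

lemma aux_w3 {w : ℝ} (hw : 2 ≤ w) : w < w ^ 3 := by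
  have h := aux_w4 hw
  have : w ^ 3 = w ^ 2 * w := by ring
  nlinarith

lemma aux_den {w : ℝ} (hw : 2 ≤ w) : 0 < (w ^ 3 - 3 * w) / 2 := by
  have h := aux_w4 hw
  have : w ^ 3 = w ^ 2 * w := by ring
  nlinarith

lemma aux_R {w : ℝ} (hw : 2 ≤ w) : 27 / 16 + 1 / w ^ 2 ≤ 27 / 16 * (1 + 1 / w ^ 2) ^ 2 := by
  have h3 : 0 ≤ 1 / w ^ 2 := by positivity
  nlinarith

lemma aux_num {w s c : ℝ} (hw : 2 ≤ w) (hsw : s ≤ w) (hc : 5 / 2 ≤ c) {X : ℝ}
    (hX : X ≤ c / 2 * (w ^ 3 + 2 * w + 1 / w)) : X + 2 * s + 1 ≤ c / 2 * (w ^ 3 + 5 * w) := by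
  have hwpos : 0 < w := by linarith
  have h3 : 1 / w ≤ 1 / 4 * w := by
    rw [div_le_iff₀ hwpos]
    nlinarith
  have h4 : 2 * s + 1 ≤ 5 / 2 * w := by linarith
  have h5 : 5 / 2 * w ≤ c / 2 * (2 * w) := by nlinarith
  have h6 : c / 2 * (1 / w) ≤ c / 2 * (1 / 4 * w) := mul_le_mul_of_nonneg_left h3 (by linarith)
  have h7 : 0 ≤ c * w := by positivity
  nlinarith

lemma aux_96 {w : ℝ} (hw : 2 ≤ w) : 96 / w ≤ 24 * w := by
  have hwpos : 0 < w := by linarith
  rw [div_le_iff₀ hwpos]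
  nlinarith

lemma aux_32 {n w : ℝ} (hw : w = n + 1) (hn : 1 ≤ n) : n * (32 / w ^ 2) ≤ 16 := by
  have hwpos : 0 < w := by linarith
  rw [mul_div_assoc', div_le_iff₀ (by positivity), hw]
  nlinarith

lemma aux_w5 {w : ℝ} (hw : 2 ≤ w) : 2 * w ^ 3 + 1 ≤ w ^ 5 := by
  have h := aux_w4 hw
  have h3 : 8 ≤ w ^ 3 := by
    have : w ^ 3 = w ^ 2 * w := by ring
    nlinarith
  have h2 : w ^ 5 = w ^ 2 * w ^ 3 := by ring
  rw [h2]
  nlinarith

lemma aux_fin {w X : ℝ} (hw : 2 ≤ w) (hX : 1 ≤ X) :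
    4 * (5 * w ^ 2) * (5 * w * X + 1) + 1 ≤ 121 * w ^ 3 * X := by
  have h := aux_w4 hw
  have h3 : w ^ 2 ≤ w ^ 3 := by
    have : w ^ 3 = w ^ 2 * w := by ring
    nlinarith
  have h4 : w ^ 3 ≤ w ^ 3 * X := le_mul_of_one_le_right (by positivity) hX
  have h5 : 1 ≤ w ^ 3 := by linarith
  have h6 : 4 * (5 * w ^ 2) * (5 * w * X + 1) + 1 = 100 * (w ^ 3 * X) + 20 * w ^ 2 + 1 := by ring
  rw [h6]
  have h7 : 121 * w ^ 3 * X = 121 * (w ^ 3 * X) := by ring
  rw [h7]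
  linarith

lemma aux_Kr {Kr b Y : ℝ} (h1 : Kr ≤ Y * b) (hb : 1 ≤ b) {K : ℝ} (hK : K ≤ Kr + 1) :
    K ≤ (Y + 1) * b := by
  nlinarith

theorem upper_pos (n : ℕ) (hn : 1 ≤ n) : ∃ k : ℕ,
    (k : ℝ) ≤ 121 * Real.exp 16 * ((n : ℝ) + 1) ^ 3 * c0 ^ n ∧
    ∃ f : EuclideanSpace ℝ (Fin n) → Fin k, ∀ x y, dist x y = 1 → f x ≠ f y := by
  classical
  set w : ℝ := (n : ℝ) + 1 with hw
  have hn1 : (1 : ℝ) ≤ n := by exact_mod_cast hn
  have hw2 : 2 ≤ w := by rw [hw]; linarith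
  have hwpos : 0 < w := by linarith
  set U : ℕ := (n + 1) ^ 3 with hU
  have hUw : (U : ℝ) = w ^ 3 := by rw [hU, hw]; push_cast; ring
  set s : ℝ := Real.sqrt n with hs
  have hs0 : 0 ≤ s := Real.sqrt_nonneg _
  have hs2 : s ^ 2 = n := Real.sq_sqrt (by linarith)
  have hsw : s ≤ w := aux_s hw hn1 hs0 hs2
  set D : ℝ := (U : ℝ) + s with hD
  have hDpos : 0 < D := by rw [hD, hUw]; positivity
  have hDle : D ≤ w ^ 3 + w := by rw [hD, hUw]; linarith
  have hw4 : 4 ≤ w ^ 2 := aux_w4 hw2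
  have hUs : s < U := by
    rw [hUw]
    exact hsw.trans_lt (aux_w3 hw2)
  set r : ℝ := ((U : ℝ) - s) / 2 with hr
  have hrs : (w ^ 3 - 3 * w) / 2 ≤ r - s := by rw [hr, hUw]; linarith
  have hden : 0 < (w ^ 3 - 3 * w) / 2 := aux_den hw2
  have hrpos : 0 < r := by linarith
  -- parameters
  set M : ℕ := ⌈2 * D⌉₊ with hM
  have hMD : 2 * D ≤ M := Nat.le_ceil _
  set h : ℝ := D / w with hh
  have hhpos : 0 < h := div_pos hDpos hwpos
  set m : ℕ := 2 * (n + 1) with hm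
  have hmw : (m : ℝ) = 2 * w := by rw [hm, hw]; push_cast; ring
  have hmh : 2 * D ≤ m * h := by
    rw [hmw, hh]
    have : 2 * w * (D / w) = 2 * D := by field_simp
    rw [this]
  set R : ℝ := Real.sqrt (27 / 16 * D ^ 2 + h ^ 2) with hR
  set v : ℝ := vb n with hv
  have hvpos : 0 < v := vb_pos n
  set Kr : ℝ := (2 * m + 1) * ((R + 2 * s + 1) ^ n * v) with hKr
  have hR0 : 0 ≤ R := Real.sqrt_nonneg _
  have hKrpos : 0 < Kr := by rw [hKr]; positivity
  set K : ℕ := ⌈Kr⌉₊ with hK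
  have hK0 : 0 < K := Nat.ceil_pos.2 hKrpos
  have hKle : (K : ℝ) ≤ Kr + 1 := (Nat.ceil_lt_add_one hKrpos.le).le
  have hkill : ∀ a ∈ cell n M r, (killset n M D a).card ≤ K := by
    intro a ha
    have h1 : ‖pt a‖ < r := (mem_filter.1 ha).2
    have h2 : 2 * ‖pt a‖ ≤ D := by
      rw [hr] at h1
      linarith
    have h3 := card_killset (n := n) (M := M) hDpos h2 hhpos m hmh
    have h4 : ((killset n M D a).card : ℝ) ≤ K := h3.trans (Nat.le_ceil _)
    exact_mod_cast h4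
  -- the cell
  set b : ℝ := ((cell n M r).card : ℝ) with hb
  have hb1 : 1 ≤ b := by
    have : 0 < (cell n M r).card := card_pos.2 ⟨0, zero_mem_cell n M hrpos⟩
    rw [hb]
    exact_mod_cast this
  have hbv : (r - s) ^ n * v ≤ b := by
    apply le_card_ball
    · linarith
    · intro z hz
      rw [cell, mem_filter]
      refine ⟨mem_box ?_, hz⟩
      have h5 : r ≤ 2 * D := by rw [hr, hD]; linarith
      linarith
  -- number of colours
  set L : ℝ := n * Real.log (2 * U + 1) with hL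
  have hL0 : 0 ≤ L := by
    rw [hL]
    apply mul_nonneg (by linarith)
    apply Real.log_nonneg
    have : (0 : ℝ) ≤ U := Nat.cast_nonneg U
    linarith
  set k : ℕ := ⌊L * (4 * K) / b⌋₊ + 1 with hk
  have hkb : L * (4 * K) < k * b := by
    have h1 : L * (4 * K) / b < k := by
      rw [hk]; push_cast
      exact Nat.lt_floor_add_one _
    rwa [div_lt_iff₀ (by linarith)] at h1
  obtain ⟨f, hf⟩ := colouring (n := n) (U := U) (M := M) (K := K) hMD hUs hK0 hkill k hkb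
  refine ⟨k, ?_, f, hf⟩
  -- estimates
  have hc := c0_sq
  have hcpos := c0_pos
  have hcge := c0_ge
  have hRle : R ≤ c0 / 2 * (1 + 1 / w ^ 2) * D := by
    apply Real.sqrt_le_iff.2
    refine ⟨by positivity, ?_⟩
    have h1 : (c0 / 2 * (1 + 1 / w ^ 2) * D) ^ 2 = 27 / 16 * (1 + 1 / w ^ 2) ^ 2 * D ^ 2 := by
      rw [mul_pow, mul_pow, div_pow, hc]; ring
    rw [h1, hh, div_pow]
    have h2 : 27 / 16 * D ^ 2 + D ^ 2 / w ^ 2 = (27 / 16 + 1 / w ^ 2) * D ^ 2 := by ring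
    rw [h2]
    exact mul_le_mul_of_nonneg_right (aux_R hw2) (sq_nonneg _)
  have hnum : R + 2 * s + 1 ≤ c0 / 2 * (w ^ 3 + 5 * w) := by
    have h1 : c0 / 2 * (1 + 1 / w ^ 2) * D ≤ c0 / 2 * (1 + 1 / w ^ 2) * (w ^ 3 + w) :=
      mul_le_mul_of_nonneg_left hDle (by positivity)
    have h2 : c0 / 2 * (1 + 1 / w ^ 2) * (w ^ 3 + w) = c0 / 2 * (w ^ 3 + 2 * w + 1 / w) := by
      field_simp
      ring
    rw [h2] at h1
    exact aux_num hw2 hsw hcge (hRle.trans h1)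
  set ρ : ℝ := c0 * (1 + 32 / w ^ 2) with hρ
  have hratio : R + 2 * s + 1 ≤ ρ * (r - s) := by
    have h1 : ρ * ((w ^ 3 - 3 * w) / 2) ≤ ρ * (r - s) :=
      mul_le_mul_of_nonneg_left hrs (by rw [hρ]; positivity)
    refine hnum.trans (le_trans ?_ h1)
    have h2 : ρ * ((w ^ 3 - 3 * w) / 2) = c0 / 2 * (w ^ 3 + 29 * w - 96 / w) := by
      rw [hρ]
      field_simp
      ring
    rw [h2]
    apply mul_le_mul_of_nonneg_left _ (by positivity)
    have h3 := aux_96 hw2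
    linarith
  have hpow : (R + 2 * s + 1) ^ n * v ≤ ρ ^ n * b := by
    calc (R + 2 * s + 1) ^ n * v ≤ (ρ * (r - s)) ^ n * v := by
          apply mul_le_mul_of_nonneg_right _ hvpos.le
          exact pow_le_pow_left₀ (by positivity) hratio n
      _ = ρ ^ n * ((r - s) ^ n * v) := by rw [mul_pow]; ring
      _ ≤ ρ ^ n * b := mul_le_mul_of_nonneg_left hbv (by rw [hρ]; positivity)
  have hρn : ρ ^ n ≤ Real.exp 16 * c0 ^ n := by
    rw [hρ, mul_pow, mul_comm]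
    apply mul_le_mul_of_nonneg_right _ (by positivity)
    calc (1 + 32 / w ^ 2) ^ n ≤ (Real.exp (32 / w ^ 2)) ^ n := by
          apply pow_le_pow_left₀ (by positivity)
          have := Real.add_one_le_exp (32 / w ^ 2)
          linarith
      _ = Real.exp (n * (32 / w ^ 2)) := by rw [← Real.exp_nat_mul]
      _ ≤ Real.exp 16 := by
          apply Real.exp_le_exp.2
          exact aux_32 hw hn1
  have hlog : Real.log (2 * U + 1) ≤ 5 * w := by
    have h1 : (2 * (U : ℝ) + 1) ≤ w ^ 5 := by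
      rw [hUw]
      exact aux_w5 hw2
    calc Real.log (2 * U + 1) ≤ Real.log (w ^ 5) := by
          apply Real.log_le_log _ h1
          have : (0 : ℝ) ≤ U := Nat.cast_nonneg U
          linarith
      _ = 5 * Real.log w := by rw [Real.log_pow]; norm_num
      _ ≤ 5 * w := by
          have := Real.log_le_sub_one_of_pos hwpos
          linarith
  have hLle : L ≤ 5 * w ^ 2 := by
    rw [hL]
    have : (n : ℝ) ≤ w := by rw [hw]; linarith
    calc (n : ℝ) * Real.log (2 * U + 1) ≤ w * (5 * w) := by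
          apply mul_le_mul this hlog _ hwpos.le
          apply Real.log_nonneg
          have : (0 : ℝ) ≤ U := Nat.cast_nonneg U
          linarith
      _ = 5 * w ^ 2 := by ring
  have hKb : (K : ℝ) / b ≤ 5 * w * (Real.exp 16 * c0 ^ n) + 1 := by
    rw [div_le_iff₀ (by linarith)]
    have h1 : Kr ≤ 5 * w * (Real.exp 16 * c0 ^ n) * b := by
      rw [hKr, hmw]
      calc (2 * (2 * w) + 1) * ((R + 2 * s + 1) ^ n * v)
          ≤ (5 * w) * (ρ ^ n * b) := by
            apply mul_le_mul _ hpow (by positivity) (by positivity)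
            linarith
        _ ≤ (5 * w) * ((Real.exp 16 * c0 ^ n) * b) := by
            apply mul_le_mul_of_nonneg_left _ (by positivity)
            exact mul_le_mul_of_nonneg_right hρn (by linarith)
        _ = _ := by ring
    exact aux_Kr h1 hb1 hKle
  have hc1 : (1 : ℝ) ≤ c0 ^ n := one_le_pow₀ (by linarith)
  have he1 : (1 : ℝ) ≤ Real.exp 16 := Real.one_le_exp (by norm_num)
  have hec : 1 ≤ Real.exp 16 * c0 ^ n := one_le_mul_of_one_le_of_one_le he1 hc1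
  have hk1 : (k : ℝ) ≤ L * (4 * K) / b + 1 := by
    rw [hk]; push_cast
    have := Nat.floor_le (a := L * (4 * K) / b) (by positivity)
    linarith
  have hk2 : L * (4 * K) / b = 4 * L * (K / b) := by ring
  calc (k : ℝ) ≤ 4 * L * (K / b) + 1 := by rw [← hk2]; exact hk1
    _ ≤ 4 * (5 * w ^ 2) * (5 * w * (Real.exp 16 * c0 ^ n) + 1) + 1 := by
        have h1 : 4 * L * (K / b) ≤ 4 * (5 * w ^ 2) * (5 * w * (Real.exp 16 * c0 ^ n) + 1) := by
          apply mul_le_mul _ hKb (by positivity) (by positivity)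
          linarith
        linarith
    _ ≤ 121 * Real.exp 16 * w ^ 3 * c0 ^ n := by
        set X := Real.exp 16 * c0 ^ n with hX
        have h2 : 121 * Real.exp 16 * w ^ 3 * c0 ^ n = 121 * w ^ 3 * X := by rw [hX]; ring
        rw [h2]
        exact aux_fin hw2 hec

/-- Upper bound for the chromatic number of every Euclidean space. -/
theorem upper : ∃ C : ℝ, ∀ n : ℕ, ∃ k : ℕ,
    (k : ℝ) ≤ C * ((n : ℝ) + 1) ^ 3 * (3 * Real.sqrt 3 / 2) ^ n ∧
    ∃ f : EuclideanSpace ℝ (Fin n) → Fin k, ∀ x y, dist x y = 1 → f x ≠ f y := by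
  refine ⟨121 * Real.exp 16, fun n => ?_⟩
  rcases Nat.eq_zero_or_pos n with hn | hn
  · subst hn
    refine ⟨1, ?_, fun _ => 0, ?_⟩
    · have he1 : (1 : ℝ) ≤ Real.exp 16 := Real.one_le_exp (by norm_num)
      simp
      linarith
    · intro x y hxy
      have : x = y := Subsingleton.elim x y
      rw [this, dist_self] at hxy
      norm_num at hxy
  · exact upper_pos n hn

end Pool.Agent.H6.ChiU
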